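import Mathlib

/-! Project TR (helper949), part STEP (helper73): from the step `1` to the step `s`. -/

set_option autoImplicit false

namespace Pool.Agent.N73.TR

open Finset
open scoped fwdDiff

/-- STEP: from the step `1` to the step `s` (a copy of `Pool.Agent.N949.TR.S_STEP`) -/
def S_STEP : Prop :=
  ∀ (k s : ℕ) (F : ℕ → ℝ) (B : ℝ), 1 ≤ s →
    (∀ e, e + k ≤ k * s →
      |∑ d ∈ range (k + 1), (-1 : ℝ) ^ d * (k.choose d : ℝ) * F (e + d)| ≤ B) →
    |∑ d ∈ range (k + 1), (-1 : ℝ) ^ d * (k.choose d : ℝ) * F (s * d)| ≤ (s : ℝ) ^ k * B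

theorem abs_sum_eq (k s : ℕ) (F : ℕ → ℝ) (t : ℕ) :
    |∑ d ∈ range (k + 1), (-1 : ℝ) ^ d * (k.choose d : ℝ) * F (t + d * s)| =
      |(fwdDiff s)^[k] F t| := by
  have h : ∑ d ∈ range (k + 1), (-1 : ℝ) ^ d * (k.choose d : ℝ) * F (t + d * s) =
      (-1 : ℝ) ^ k * (fwdDiff s)^[k] F t := by
    rw [fwdDiff_iter_eq_sum_shift, mul_sum]
    refine sum_congr rfl fun d hd => ?_
    have hdk : d ≤ k := Nat.lt_succ_iff.1 (mem_range.1 hd)
    rw [zsmul_eq_mul, smul_eq_mul]
    push_cast
    have h1 : (-1 : ℝ) ^ k * (-1 : ℝ) ^ (k - d) = (-1) ^ d := by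
      rw [← pow_add]
      have h2 : k + (k - d) = d + 2 * (k - d) := by omega
      rw [h2, pow_add, pow_mul]
      norm_num
    rw [← h1]
    ring
  rw [h, abs_mul, abs_pow, abs_neg, abs_one, one_pow, one_mul]

theorem comm1 (s : ℕ) (F : ℕ → ℝ) : fwdDiff 1 (fwdDiff s F) = fwdDiff s (fwdDiff 1 F) := by
  funext t
  simp only [fwdDiff]
  rw [add_right_comm t 1 s]
  ring

theorem commk (k s : ℕ) (F : ℕ → ℝ) :
    (fwdDiff 1)^[k] (fwdDiff s F) = fwdDiff s ((fwdDiff 1)^[k] F) := by
  induction k generalizing F with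
  | zero => rfl
  | succ k ih => rw [Function.iterate_succ_apply, Function.iterate_succ_apply, comm1, ih]

theorem tele (s : ℕ) (G : ℕ → ℝ) (t : ℕ) :
    fwdDiff s G t = ∑ i ∈ range s, fwdDiff 1 G (t + i) := by
  simp only [fwdDiff]
  have h := sum_range_sub (fun i => G (t + i)) s
  simp only [add_zero] at h
  rw [← h]
  rfl

theorem gen (k s : ℕ) : ∀ (F : ℕ → ℝ) (B : ℝ) (t : ℕ),
    (∀ e, t ≤ e → e + k ≤ t + k * s → |(fwdDiff 1)^[k] F e| ≤ B) →
    |(fwdDiff s)^[k] F t| ≤ (s : ℝ) ^ k * B := by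
  induction k with
  | zero =>
    intro F B t h
    simpa using h t le_rfl (by omega)
  | succ k ih =>
    intro F B t h
    rw [Function.iterate_succ_apply]
    have h1 := ih (fwdDiff s F) ((s : ℝ) * B) t (by
      intro e he hek
      rw [commk, tele]
      refine (abs_sum_le_sum_abs _ _).trans ?_
      have h2 : ∀ i ∈ range s, |fwdDiff 1 ((fwdDiff 1)^[k] F) (e + i)| ≤ B := by
        intro i hi
        rw [← Function.iterate_succ_apply' (fwdDiff 1) k F]
        refine h (e + i) (by omega) ?_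
        have hi' := mem_range.1 hi
        rw [Nat.succ_mul]
        omega
      refine (sum_le_sum h2).trans ?_
      rw [sum_const, card_range, nsmul_eq_mul])
    rw [pow_succ, mul_assoc]
    exact h1

theorem step : S_STEP := by
  intro k s F B _ h
  have h1 := gen k s F B 0 (by
    intro e _ he
    rw [← abs_sum_eq]
    simp only [mul_one]
    exact h e (by omega))
  rw [← abs_sum_eq] at h1
  refine le_trans (le_of_eq ?_) h1
  congr 1
  refine sum_congr rfl fun d _ => ?_
  rw [zero_add, mul_comm s d]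

end Pool.Agent.N73.TR
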